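import Pool.Agent.H768R2.FD.Model

set_option autoImplicit false

open scoped InnerProductSpace Topology NNReal
open Filter Pool.Agent.H768R2.FD

namespace Pool.Agent.Results.MP_5b305c_an.NeverUniform

universe u v w

variable {K : Type u} [NormedAddCommGroup K] [InnerProductSpace ℂ K] [CompleteSpace K]
variable {E : Type v} [NormedAddCommGroup E] [InnerProductSpace ℂ E]
variable {F : Type w} [NormedAddCommGroup F] [InnerProductSpace ℂ F]

/-- Sanity check: models of `L²(N)`, for `N ⊆ M`, and of the tensor square of a Hilbert space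
exist. -/
theorem exists_models {M N : VonNeumannAlgebra K} {τ : (K →L[ℂ] K) → ℂ}
    (hτ : IsTraceState M τ) (hN : ∀ a ∈ N, a ∈ M) :
    ∃ (E : Type u) (_ : NormedAddCommGroup E) (_ : InnerProductSpace ℂ E) (_ : CompleteSpace E)
      (F : Type u) (_ : NormedAddCommGroup F) (_ : InnerProductSpace ℂ F) (_ : CompleteSpace F)
      (Λ : (K →L[ℂ] K) → E) (t : E → E → F), IsL2 N τ Λ ∧ IsTensorSquare t := by
  obtain ⟨E, i1, i2, i3, Λ, hΛ⟩ := exists_isL2 hτ hN
  obtain ⟨F, i4, i5, i6, t, ht⟩ := exists_isTensorSquare E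
  exact ⟨E, i1, i2, i3, F, i4, i5, i6, Λ, t, hΛ, ht⟩

omit [CompleteSpace K] in
/-- Sanity check: the closure of the gradient on polynomials is a closed gradient. -/
theorem closure_isClosedGradient (Λ : (K →L[ℂ] K) → E) (t : E → E → F) {m : ℕ}
    (x : Fin m → (K →L[ℂ] K)) : IsClosedGradient Λ t x (gradGraph Λ t x).topologicalClosure where
  closed := Submodule.isClosed_topologicalClosure _
  extends_grad := Submodule.le_topologicalClosure _
  le_closures := by
    intro ξ α h i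
    let π : (E × PiLp 2 (fun _ : Fin m => F)) →L[ℂ] (E × F) :=
      (ContinuousLinearMap.fst ℂ _ _).prod
        (PiLp.proj 2 (fun _ : Fin m => F) i ∘L ContinuousLinearMap.snd ℂ _ _)
    have h1 : π (ξ, α) ∈ closure (fdqGraph Λ t x i : Set (E × F)) := by
      refine map_mem_closure π.continuous h ?_
      intro v (hv' : v ∈ gradGraph Λ t x)
      show π v ∈ fdqGraph Λ t x i
      induction hv' using Submodule.span_induction with
      | mem v hv =>
        obtain ⟨w, rfl⟩ := hv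
        exact Submodule.subset_span ⟨w, rfl⟩
      | zero => rw [map_zero]; exact Submodule.zero_mem _
      | add v w h1 h2 h3 h4 => rw [map_add]; exact Submodule.add_mem _ h3 h4
      | smul c v h1 h2 => rw [map_smul]; exact Submodule.smul_mem _ _ h2
    exact h1

omit [CompleteSpace K] in
/-- Sanity check: the column `(∂̄₁, …, ∂̄_m)` of the closures of the `∂_i`, whose `T* T` is the sum
`∑ ∂̄_i* ∂̄_i` of quadratic forms, is a closed gradient. -/
theorem column_isClosedGradient (Λ : (K →L[ℂ] K) → E) (t : E → E → F) {m : ℕ}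
    (x : Fin m → (K →L[ℂ] K)) : ∃ T, IsClosedGradient Λ t x T ∧
      ∀ ξ α, (ξ, α) ∈ T ↔ ∀ i, (ξ, α i) ∈ (fdqGraph Λ t x i).topologicalClosure := by
  let π : Fin m → (E × PiLp 2 (fun _ : Fin m => F)) →L[ℂ] (E × F) := fun i =>
    (ContinuousLinearMap.fst ℂ _ _).prod
      (PiLp.proj 2 (fun _ : Fin m => F) i ∘L ContinuousLinearMap.snd ℂ _ _)
  let T : Submodule ℂ (E × PiLp 2 (fun _ : Fin m => F)) :=
    ⨅ i, (fdqGraph Λ t x i).topologicalClosure.comap (π i : _ →ₗ[ℂ] _)
  have hT : ∀ ξ α, (ξ, α) ∈ T ↔ ∀ i, (ξ, α i) ∈ (fdqGraph Λ t x i).topologicalClosure := by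
    intro ξ α
    rw [Submodule.mem_iInf]
    rfl
  refine ⟨T, ⟨?_, ?_, fun ξ α h => (hT ξ α).1 h⟩, hT⟩
  · have : (T : Set (E × PiLp 2 (fun _ : Fin m => F))) =
        ⋂ i, (π i) ⁻¹' ((fdqGraph Λ t x i).topologicalClosure : Set (E × F)) := by
      rw [Submodule.coe_iInf]
      rfl
    rw [this]
    exact isClosed_iInter fun i =>
      (Submodule.isClosed_topologicalClosure (fdqGraph Λ t x i)).preimage (π i).continuous
  · refine Submodule.span_le.2 ?_
    rintro _ ⟨w, rfl⟩
    exact (hT _ _).2 fun i => Submodule.le_topologicalClosure _ (Submodule.subset_span ⟨w, rfl⟩)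

/-- Let `(M, τ)` be a tracial von Neumann algebra, and let `x₁, …, x_m ∈ M`, `m ≥ 1`, be
self-adjoint with finite free Fisher information. Let `N = W*(x₁, …, x_m)` and let `Δ = T* T`, where
`T` is any closed version of the gradient `(∂₁, …, ∂_m)`: the closure of the gradient on
polynomials, or the column `(∂̄₁, …, ∂̄_m)` of the closures, or anything in between. Then
`φ_s = exp(-s Δ)` exists and is unique, and `sup {‖φ_s(y) - y‖₂ : y ∈ N, ‖y‖ ≤ 1}` does not tend to
`0` as `s → 0+`; in fact it is bounded below by a positive constant on `(0, ∞)`. -/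
theorem result [CompleteSpace E] [CompleteSpace F]
    (M : VonNeumannAlgebra K) (τ : (K →L[ℂ] K) → ℂ) (hτ : IsTraceState M τ)
    {m : ℕ} (hm : 0 < m) (x : Fin m → (K →L[ℂ] K)) (hxM : ∀ i, x i ∈ M)
    (hx : ∀ i, IsSelfAdjoint (x i)) (Λ : (K →L[ℂ] K) → E) (hΛ : IsL2 (vnGen (Set.range x)) τ Λ)
    (t : E → E → F) (ht : IsTensorSquare t) (hF : FiniteFisher Λ t x)
    (T : Submodule ℂ (E × PiLp 2 (fun _ : Fin m => F))) (hT : IsClosedGradient Λ t x T) :
    (∃! φ, IsSemigroupOf (lapGraph T) φ) ∧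
      ∀ φ, IsSemigroupOf (lapGraph T) φ → ¬ ConvergesUniformly Λ (vnGen (Set.range x)) φ ∧
        ∃ c : ℝ, 0 < c ∧ ∀ s : ℝ≥0, 0 < s → c ≤ unifDist Λ (vnGen (Set.range x)) φ s := by
  have hNM : ∀ a ∈ vnGen (Set.range x), a ∈ M := fun a ha => vnGen_le hxM ha
  obtain ⟨U, hU⟩ := exists_U hτ hNM hΛ
  obtain ⟨V, hV⟩ := exists_V (toTrace hτ hNM) U ht
  let X : Fin m → Pool.Agent.H768R2.FQ.Elt (vnGen (Set.range x)) :=
    fun i => ⟨x i, mem_vnGen x i⟩
  have hsa : ∀ i, star (X i) = X i := fun i => Subtype.ext (hx i).star_eq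
  have hN : ∀ e : K →L[ℂ] K, (∀ i, (X i : K →L[ℂ] K) * e = e * (X i : K →L[ℂ] K)) →
      ∀ y ∈ vnGen (Set.range x), e * y = y * e := by
    intro e he y hy
    have h1 : y ∈ StarSubalgebra.centralizer ℂ (StarSubalgebra.centralizer ℂ
      (Set.range x) : Set (K →L[ℂ] K)) := hy
    rw [StarSubalgebra.mem_centralizer_iff] at h1
    refine (h1 e ?_).1
    show e ∈ StarSubalgebra.centralizer ℂ (Set.range x)
    rw [StarSubalgebra.mem_centralizer_iff]
    rintro _ ⟨i, rfl⟩
    refine ⟨he i, ?_⟩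
    rw [(hx i).star_eq]
    exact he i
  set W := LinearIsometryEquiv.piLpCongrRight 2 (fun _ : Fin m => V) with hW
  obtain ⟨⟨φ₀, hφ₀, huniq⟩, hlow⟩ := Pool.Agent.H768R2.FQ.concrete_main (toTrace hτ hNM) hm X hsa hN
    (fisher_iff (toTrace hτ hNM) U V X hU hV hF) (pull U W T)
    (closedGradient (toTrace hτ hNM) U V X hU hV T hT)
  have hback : ∀ φ, IsSemigroupOf (lapGraph T) φ →
      Pool.Agent.H768R2.FQ.IsSemigroupOf (Pool.Agent.H768R2.FQ.lapGraph (pull U W T))
        (conj U φ) := by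
    intro φ hφ
    exact toFQ (isSemigroupOf_conj U (mem_lapGraph_pull U W T) hφ)
  refine ⟨⟨conj U.symm φ₀, ?_, ?_⟩, ?_⟩
  · refine isSemigroupOf_conj U.symm (fun ξ ζ => ?_) (ofFQ hφ₀)
    have h1 := mem_lapGraph_pull U W T (U.symm ξ) (U.symm ζ)
    rw [U.apply_symm_apply, U.apply_symm_apply] at h1
    exact h1.symm
  · intro φ hφ
    have h1 := huniq _ (hback φ hφ)
    funext s
    ext ξ
    have h2 := congrArg (fun ψ => U (ψ s (U.symm ξ))) h1
    have h3 : U (conj U φ s (U.symm ξ)) = φ s ξ := by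
      rw [conj_apply, U.apply_symm_apply, U.apply_symm_apply]
    rw [← h3]
    exact h2
  · intro φ hφ
    obtain ⟨c, hc, h1⟩ := hlow _ (hback φ hφ)
    have h2 : ∀ s : ℝ≥0, 0 < s → c ≤ unifDist Λ (vnGen (Set.range x)) φ s := by
      intro s hs
      rw [← unifDist_eq (toTrace hτ hNM) U hU]
      exact h1 s hs
    refine ⟨?_, c, hc, h2⟩
    intro h3
    have h4 : c ≤ 0 := by
      refine ge_of_tendsto h3 ?_
      filter_upwards [self_mem_nhdsWithin] with s hs
      exact h2 s hs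
    linarith

end Pool.Agent.Results.MP_5b305c_an.NeverUniform
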